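import Pool.Agent.Helper205_Exc.Szp
import Pool.Agent.Helper205_Exc.SzpF2
import Pool.Agent.Y680.T.F6
import Pool.Agent.Y680.T.F24
import Pool.Agent.Y680.T.F26

/-!
# Semistable curves with a large Szpiro ratio

Szpiro's conjecture says that for `κ > 6` only finitely many semistable elliptic curves over `ℚ`
satisfy `|Δ| ≥ N ^ κ`. We bound the number of those with given torsion for large `κ`.

Let `q = 3, 4, 4, 6` be the number of cusps of the modular curve that parametrises the curves with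
full rational 2-torsion, with a rational point of order 6, with a subgroup `ℤ/2 × ℤ/4` and with a
subgroup `ℤ/2 × ℤ/6` of rational points. The number of all the semistable curves of these types with
conductor `N ≤ X` is of the order `X ^ (2/q)`. For every `η > 0` there is a `κ₀` such that at most
`C X ^ (1/q + η)` of them have `N ^ κ₀ ≤ |Δ| ≤ X ^ A`; and for `κ ≥ κ₀` at most
`C X ^ ((6/q + η) / κ)` of those of naive height at most `X ^ 6` have `|Δ| > c₀ N ^ κ`. Both
exponents are half of those which follow from counting all the curves with `N ≤ X` or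
`N ≤ (X ^ 6 / c₀) ^ (1/κ)`.

The values of the `q` linear forms at the point attached to the curve have small radicals compared
to the height. If one of them is divisible by a large power `r ^ E` of a small integer `r`, two
others are proportional modulo `r ^ E`, and a count of pairs of integers with small radicals which
are proportional modulo `r ^ E` gives the bound. Otherwise they are products of powers of boundedly
many small integers, and the determinant method applies.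
-/

set_option autoImplicit false

namespace Pool.Agent.Results.MP_d8bd92_nt.LargeRatioByTorsion

/-- the product of the primes dividing `Δ(W)` (the conductor if `gcd(c₄, Δ) = 1`) -/
def conductor (W : WeierstrassCurve ℤ) : ℕ := ∏ p ∈ W.Δ.natAbs.primeFactors, p

/-- `W` is the minimal model of a semistable elliptic curve over `ℚ` -/
def Semistable (W : WeierstrassCurve ℤ) : Prop := W.Δ ≠ 0 ∧ IsCoprime W.c₄ W.Δ

/-- all 2-torsion points are rational: `4x³ + b₂x² + 2b₄x + b₆` splits over `ℚ` -/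
def FullTwoTorsion (W : WeierstrassCurve ℤ) : Prop :=
  ∃ r₁ r₂ r₃ : ℚ, ∀ x : ℚ,
    4 * x ^ 3 + W.b₂ * x ^ 2 + 2 * W.b₄ * x + W.b₆ = 4 * (x - r₁) * (x - r₂) * (x - r₃)

/-- the group of the rational points of the curve contains a subgroup isomorphic to `T` -/
def HasTorsion (T : Type) [AddCommGroup T] (W : WeierstrassCurve ℤ) : Prop :=
  ∃ f : T →+ (W.map (Int.castRingHom ℚ)).toAffine.Point, Function.Injective f

/-- the invariants `(c₄, c₆)` of the semistable elliptic curves over `ℚ` with the property `P`, with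
conductor `N ≤ X` and with `N ^ κ ≤ |Δ| ≤ X ^ A` -/
def Large (P : WeierstrassCurve ℤ → Prop) (κ A X : ℝ) : Set (ℤ × ℤ) :=
  {g | ∃ W : WeierstrassCurve ℤ, Semistable W ∧ P W ∧ (conductor W : ℝ) ≤ X ∧
    (conductor W : ℝ) ^ κ ≤ |(W.Δ : ℝ)| ∧ |(W.Δ : ℝ)| ≤ X ^ A ∧ (W.c₄, W.c₆) = g}

/-- the invariants `(c₄, c₆)` of the semistable elliptic curves over `ℚ` with the property `P`,
naive height `max (|c₄|³, c₆²) ≤ X⁶` and `c₀ N ^ κ < |Δ|` -/
def Exceptional (P : WeierstrassCurve ℤ → Prop) (κ c₀ : ℝ) (X : ℕ) : Set (ℤ × ℤ) :=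
  {g | ∃ W : WeierstrassCurve ℤ, Semistable W ∧ P W ∧ |W.c₄| ^ 3 ≤ (X : ℤ) ^ 6 ∧
    W.c₆ ^ 2 ≤ (X : ℤ) ^ 6 ∧ c₀ * (conductor W : ℝ) ^ κ < |(W.Δ : ℝ)| ∧ (W.c₄, W.c₆) = g}

/-- For every `η > 0` there is `κ₀` such that (1) for every `A` at most `C X ^ (1/q + η)` semistable
curves with the property `P` have `N ≤ X` and `N ^ κ₀ ≤ |Δ| ≤ X ^ A`, and (2) for all `κ ≥ κ₀` and
`c₀ > 0` at most `C X ^ ((6/q + η) / κ)` of those with naive height at most `X ^ 6` have
`c₀ N ^ κ < |Δ|`. -/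
def Bounds (P : WeierstrassCurve ℤ → Prop) (q : ℕ) : Prop :=
  ∀ η : ℝ, 0 < η → ∃ κ₀ : ℝ, 0 < κ₀ ∧
    (∀ A : ℝ, ∃ C : ℝ, 0 < C ∧ ∀ X : ℝ, 1 ≤ X → (Large P κ₀ A X).Finite ∧
      ((Large P κ₀ A X).ncard : ℝ) ≤ C * X ^ (1 / (q : ℝ) + η)) ∧
    ∀ κ c₀ : ℝ, κ₀ ≤ κ → 0 < c₀ → ∃ C : ℝ, 0 < C ∧ ∀ X : ℕ, 1 ≤ X →
      (Exceptional P κ c₀ X).Finite ∧
      ((Exceptional P κ c₀ X).ncard : ℝ) ≤ C * (X : ℝ) ^ ((6 / (q : ℝ) + η) / κ)

open Pool.Agent.Y680.T in
theorem bounds_of {P Q : WeierstrassCurve ℤ → Prop} {q : ℕ} (F : Fam q Q) (hq : 3 ≤ q)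
    (h : ∀ W, Q W ↔ Semistable W ∧ P W) : Bounds P q := by
  intro η hη
  obtain ⟨κ₀, hκ₀, h1, h2⟩ := Pool.Agent.Helper205_Exc.fam_both F hq hη
  refine ⟨κ₀, hκ₀, fun A => ?_, fun κ c₀ hκ hc₀ => ?_⟩
  · obtain ⟨C, hC, h1⟩ := h1 A
    refine ⟨C, hC, fun X hX => ?_⟩
    have e : Large P κ₀ A X = Pool.Agent.Helper205_Exc.Lge Q κ₀ A X := by
      ext g
      constructor
      · rintro ⟨W, w1, w2, w3⟩
        exact ⟨W, (h W).2 ⟨w1, w2⟩, w3⟩
      · rintro ⟨W, w1, w3⟩
        exact ⟨W, ((h W).1 w1).1, ((h W).1 w1).2, w3⟩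
    rw [e]
    exact h1 X hX
  · obtain ⟨C, hC, h2⟩ := h2 κ c₀ hκ hc₀
    refine ⟨C, hC, fun X hX => ?_⟩
    have e : Exceptional P κ c₀ X = Pool.Agent.Helper205_Exc.Exh Q κ c₀ X := by
      ext g
      constructor
      · rintro ⟨W, w1, w2, w3⟩
        exact ⟨W, (h W).2 ⟨w1, w2⟩, w3⟩
      · rintro ⟨W, w1, w3⟩
        exact ⟨W, ((h W).1 w1).1, ((h W).1 w1).2, w3⟩
    rw [e]
    exact h2 X hX

/-- **Theorem.** The bounds hold for the semistable elliptic curves over `ℚ` with full rational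
2-torsion (`q = 3`), for those with a rational point of order 6 and for those with a subgroup
`ℤ/2 × ℤ/4` of rational points (`q = 4`), and for those with a subgroup `ℤ/2 × ℤ/6` of rational
points (`q = 6`): for every `η > 0` there is `κ₀` such that for every `A` at most
`C X ^ (1/q + η)` of them have conductor `N ≤ X` and `N ^ κ₀ ≤ |Δ| ≤ X ^ A`, and such that for all
`κ ≥ κ₀` and `c₀ > 0` at most `C X ^ ((6/q + η) / κ)` of those of naive height at most `X ^ 6` have
`c₀ N ^ κ < |Δ|`. -/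
theorem result : Bounds FullTwoTorsion 3 ∧ Bounds (HasTorsion (ZMod 6)) 4 ∧
    Bounds (HasTorsion (ZMod 2 × ZMod 4)) 4 ∧ Bounds (HasTorsion (ZMod 2 × ZMod 6)) 6 :=
  ⟨bounds_of Pool.Agent.Helper205_Exc.F2 (by norm_num) fun _ => Iff.rfl,
    bounds_of Pool.Agent.Y680.T.F6 (by norm_num) fun _ => Iff.rfl,
    bounds_of Pool.Agent.Y680.T.F24 (by norm_num) fun _ => Iff.rfl,
    bounds_of Pool.Agent.Y680.T.F26 (by norm_num) fun _ => Iff.rfl⟩

end Pool.Agent.Results.MP_d8bd92_nt.LargeRatioByTorsion
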