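import Pool.Agent.H902E.Fin

set_option autoImplicit false

/-!
# Semistable curves with a given quadratic two-division field and large discriminant

Let `d` be an integer which is not a square. There are semistable elliptic curves `E` over `ℚ` of
arbitrarily large conductor `N`, with exactly one rational point of order two and `ℚ(E[2]) = ℚ(√d)`,
such that `|Δ| > N ^ 6 exp (κ √(log N) / log log N)`, `κ = κ(d) > 0`.

The curves are `y² = (x - a) (x² - d b²)`, `a ≡ 3 (mod 4)`, `8 ∣ b`, `gcd (a, d b) = 1`, with the minimal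
discriminant `2⁻⁶ d b² (a² - d b²)²`. Here `a + b √d` is a product of elements of `ℤ[√d]` of norm `l l₀`
and of their conjugates, with exponents at most `8 z`, where `l, l₀ ≤ z` are primes `≡ 1 (mod 4 |d|)`,
chosen by the box principle so that `8 p^k ∣ b`, `p^k ≥ (8 z) ^ r / z ^ C`, and `|a² - d b²| ≥ b² / 4`. The
elements of norm `l l₀` come from Thue's lemma: the elements `β_l` of norm `c l` with the same `c` and in
the same class modulo `(|d| + 1)!` have quotients `β_l / β_(l₀) = (element of norm l l₀) / l₀`.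
-/

namespace Pool.Agent.Results.MP_d8bd92_nt.QuadraticTwoDivisionField

/-- `W` is a global minimal Weierstrass equation: `Δ ≠ 0`, and `|Δ|` is smallest among all integral
Weierstrass equations that are obtained from `W` by a change of variables over `ℚ` -/
def IsGlobalMinimal (W : WeierstrassCurve ℤ) : Prop :=
  W.Δ ≠ 0 ∧ ∀ W' : WeierstrassCurve ℤ,
    (∃ C : WeierstrassCurve.VariableChange ℚ,
      C • W.map (Int.castRingHom ℚ) = W'.map (Int.castRingHom ℚ)) → |W.Δ| ≤ |W'.Δ|

/-- the two-division polynomial of `W` is `4 (x - r) (x² - d s²)`, `s ≠ 0`: if `d` is not a square, then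
`W` has exactly one rational point of order two and `ℚ(W[2]) = ℚ(√d)` -/
def TwoDivisionField (W : WeierstrassCurve ℤ) (d : ℤ) : Prop :=
  ∃ r s : ℚ, s ≠ 0 ∧ ∀ x : ℚ,
    4 * x ^ 3 + W.b₂ * x ^ 2 + 2 * W.b₄ * x + W.b₆ = 4 * (x - r) * (x ^ 2 - d * s ^ 2)

/-- the product of the primes dividing `Δ`; it is the conductor if `W` is a global minimal equation
and `gcd (c₄, Δ) = 1`, that is, if the curve is semistable -/
def conductor (W : WeierstrassCurve ℤ) : ℕ := ∏ p ∈ W.Δ.natAbs.primeFactors, p

/-- For every integer `d` which is not a square there is `κ > 0` such that for every `X` there is a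
semistable elliptic curve over `ℚ` with two-division field `ℚ(√d)` and conductor `N > X` such that
`N ^ 6 exp (κ √(log N) / log log N) < |Δ|`. -/
theorem result (d : ℤ) (hd : ¬ IsSquare d) : ∃ κ : ℝ, 0 < κ ∧ ∀ X : ℝ,
    ∃ W : WeierstrassCurve ℤ, IsGlobalMinimal W ∧ IsCoprime W.c₄ W.Δ ∧
      TwoDivisionField W d ∧ X < conductor W ∧
      (conductor W : ℝ) ^ 6 *
          Real.exp (κ * (√(Real.log (conductor W)) / Real.log (Real.log (conductor W)))) <
        |(W.Δ : ℝ)| := by
  obtain ⟨κ, hκ, h⟩ := Pool.Agent.H902E.main d hd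
  refine ⟨κ, hκ, fun X => ?_⟩
  obtain ⟨t, w, hw, hcop, hQ, hX, hlt⟩ := h X
  have hc := Pool.Agent.H902E.crv_coprime d t w hcop
  have hd0 : d ≠ 0 := by
    rintro rfl
    exact hd ⟨0, rfl⟩
  have hΔ : (Pool.Agent.H902E.crv d t w).Δ ≠ 0 := by
    rw [Pool.Agent.H902E.crv_Δ]
    refine mul_ne_zero (mul_ne_zero hd0 (pow_ne_zero _ hw)) (pow_ne_zero _ ?_)
    have e : (4 * t - 1) ^ 2 - 64 * d * w ^ 2 = (4 * t - 1) ^ 2 - d * (8 * w) ^ 2 := by ring
    rw [e]
    exact hQ
  refine ⟨Pool.Agent.H902E.crv d t w, ⟨hΔ, Pool.Agent.H902E.minimal_of_coprime hc⟩, hc,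
    ⟨(4 * t - 1) / 4, 2 * w, ?_, fun x => ?_⟩, hX, hlt⟩
  · have : (w : ℚ) ≠ 0 := by exact_mod_cast hw
    exact mul_ne_zero two_ne_zero this
  · exact Pool.Agent.H902E.crv_two d t w x

end Pool.Agent.Results.MP_d8bd92_nt.QuadraticTwoDivisionField
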