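import Mathlib
import Pool.Agent.H828_SQ.Fin

/-!
# The limit law of `|Δ| / N` over all semistable elliptic curves, ordered by height

All semistable elliptic curves over `ℚ` are ordered by their height `max (|c₄|³, c₆²)`. Their number
is asymptotically `X ^ (5/6) / (144 π²)`, and the positive integer `|Δ| / N` has a limit law, which
is explicit: it is the law of a product of independent prime powers. Its tail is `K ^ (-1 + o(1))`.
Almost every semistable curve satisfies `|Δ| ≤ ψ(N) N` for every function `ψ` tending to infinity,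
and for no constant `ψ`.
-/

set_option autoImplicit false

namespace Pool.Agent.Results.MP_d8bd92_nt.SemistableByHeight

open Filter Topology

/-- the product of the primes dividing `Δ(W)` (the conductor if `gcd(c₄, Δ) = 1`) -/
def conductor (W : WeierstrassCurve ℤ) : ℕ := ∏ p ∈ W.Δ.natAbs.primeFactors, p

/-- `W` is the minimal model of a semistable elliptic curve over `ℚ` -/
def Semistable (W : WeierstrassCurve ℤ) : Prop := W.Δ ≠ 0 ∧ IsCoprime W.c₄ W.Δ

/-- the height of a curve -/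
def height (W : WeierstrassCurve ℤ) : ℤ := max (|W.c₄| ^ 3) (W.c₆ ^ 2)

/-- the invariants `(c₄, c₆)` of the semistable elliptic curves over `ℚ` with the property `P` and
with height at most `X`; there is one pair for each isomorphism class of curves -/
def Curves (P : WeierstrassCurve ℤ → Prop) (X : ℝ) : Set (ℤ × ℤ) :=
  {g | ∃ W : WeierstrassCurve ℤ, Semistable W ∧ P W ∧ (height W : ℝ) ≤ X ∧ (W.c₄, W.c₆) = g}

/-- the semistable elliptic curves over `ℚ` with the property `P` have the density `d` among all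
semistable elliptic curves over `ℚ`, ordered by height -/
def Proportion (P : WeierstrassCurve ℤ → Prop) (d : ℝ) : Prop :=
  Tendsto (fun X : ℝ => ((Curves P X).ncard : ℝ) / ((Curves (fun _ => True) X).ncard : ℝ)) atTop
    (𝓝 d)

/-- the product of `(p - 1) / (p ^ j (p² + p - 1))` over the prime powers `p ^ j` which exactly
divide `m` -/
noncomputable def weight (m : ℕ) : ℝ :=
  ∏ p ∈ m.primeFactors, ((p : ℝ) - 1) / ((p : ℝ) ^ m.factorization p * ((p : ℝ) ^ 2 + p - 1))

theorem curves_eq {P : WeierstrassCurve ℤ → Prop} {Q : ℤ → ℤ → Prop}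
    (h : ∀ W : WeierstrassCurve ℤ, Semistable W ∧ P W ↔ Q W.c₄ W.Δ) :
    Curves P = Pool.Agent.H828_SQ.Fam Q := by
  funext X
  ext g
  unfold Curves Pool.Agent.H828_SQ.Fam height
  simp only [Set.mem_ofPred_eq]
  constructor
  · rintro ⟨W, h1, h2, h3, h4⟩
    push_cast at h3
    rw [max_le_iff] at h3
    exact ⟨W, (h W).1 ⟨h1, h2⟩, h3.1, h3.2, h4⟩
  · rintro ⟨W, h1, h2, h3, h4⟩
    refine ⟨W, ((h W).2 h1).1, ((h W).2 h1).2, ?_, h4⟩
    push_cast
    exact max_le h2 h3

theorem all_eq : Curves (fun _ => True) = Pool.Agent.H828_SQ.Fam Pool.Agent.H828_SQ.Qs :=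
  curves_eq fun W => by
    unfold Semistable Pool.Agent.H828_SQ.Qs
    tauto

/-- **The law of Szpiro's quotient `|Δ| / N`, by height.** The number of the semistable elliptic
curves over `ℚ` of height at most `X` is asymptotically `X ^ (5/6) / (144 π²)`. For every `m ≥ 1`
the proportion of those with `|Δ| = m N` is `c₀ weight(m)`, `c₀ = ∏ (1 - 1 / (p (p + 1)))`, and these
numbers have the sum 1. The proportion `T(K)` of those with `|Δ| > K N` is at most `C K ^ (-σ)` for
every `σ < 1`, and at least `c / K`. For every function `ψ` tending to infinity, the proportion of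
those with `|Δ| ≤ ψ(N) N` is 1. -/
theorem result :
    (∀ X : ℝ, (Curves (fun _ => True) X).Finite) ∧
    Tendsto (fun X : ℝ => ((Curves (fun _ => True) X).ncard : ℝ) / X ^ ((5 : ℝ) / 6)) atTop
      (𝓝 (1 / (144 * Real.pi ^ 2))) ∧
    ∃ c₀ : ℝ, 0 < c₀ ∧
      Tendsto (fun n : ℕ => ∏ p ∈ n.primesBelow, (1 - 1 / ((p : ℝ) * (p + 1)))) atTop (𝓝 c₀) ∧
      (∀ m : ℕ, 1 ≤ m →
        Proportion (fun W => W.Δ.natAbs = m * conductor W) (c₀ * weight m)) ∧
      HasSum (fun m : ℕ => c₀ * weight (m + 1)) 1 ∧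
      (∃ T : ℕ → ℝ, (∀ K : ℕ, Proportion (fun W => K * conductor W < W.Δ.natAbs) (T K)) ∧
        (∀ σ : ℝ, 0 < σ → σ < 1 → ∃ C : ℝ, 0 < C ∧ ∀ K : ℕ, 1 ≤ K →
          T K ≤ C * (K : ℝ) ^ (-σ)) ∧
        ∃ c : ℝ, 0 < c ∧ ∀ K : ℕ, 1 ≤ K → c / K ≤ T K) ∧
      ∀ ψ : ℕ → ℝ, Tendsto ψ atTop atTop →
        Proportion (fun W => |(W.Δ : ℝ)| ≤ ψ (conductor W) * conductor W) 1 := by
  have hw : ∀ m : ℕ, 1 ≤ m → Pool.Agent.H828_SQ.law m = Pool.Agent.H828_SQ.C0 * weight m := by
    intro m hm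
    unfold Pool.Agent.H828_SQ.law Pool.Agent.H828_SQ.g
    rw [if_neg (by omega)]
    rfl
  refine ⟨fun X => ?_, ?_, Pool.Agent.H828_SQ.C0, Pool.Agent.H828_SQ.C0_pos,
    Pool.Agent.H828_SQ.C0_lim, fun m hm => ?_, ?_, ⟨Pool.Agent.H828_SQ.tail, fun K => ?_,
    fun σ h0 h1 => Pool.Agent.H828_SQ.tail_upper h0 h1, Pool.Agent.H828_SQ.tail_lower⟩,
    fun ψ hψ => ?_⟩
  · rw [all_eq]
    exact (Pool.Agent.H828_SQ.fam_card _ X).1
  · rw [all_eq]
    exact Pool.Agent.H828_SQ.lim_all
  · unfold Proportion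
    rw [all_eq, curves_eq (Q := Pool.Agent.H828_SQ.Qm m) fun W => by
      unfold Semistable Pool.Agent.H828_SQ.Qm conductor
      tauto, ← hw m hm]
    exact Pool.Agent.H828_SQ.prop_lim (Pool.Agent.H828_SQ.lim_m (by omega))
  · have h1 : HasSum (fun m : ℕ => Pool.Agent.H828_SQ.law (m + 1)) 1 := by
      rw [hasSum_nat_add_iff 1, Finset.sum_range_one]
      have : Pool.Agent.H828_SQ.law 0 = 0 := by
        simp [Pool.Agent.H828_SQ.law, Pool.Agent.H828_SQ.g_zero]
      rw [this, add_zero]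
      exact Pool.Agent.H828_SQ.law_hasSum
    refine h1.congr_fun ?_ |> fun h => h
    intro m
    exact (hw (m + 1) (by omega)).symm
  · unfold Proportion
    rw [all_eq, curves_eq (Q := Pool.Agent.H828_SQ.Qg K) fun W => by
      unfold Semistable Pool.Agent.H828_SQ.Qg conductor Pool.Agent.H828_SQ.rad
      tauto]
    exact Pool.Agent.H828_SQ.prop_lim (Pool.Agent.H828_SQ.lim_g K)
  · unfold Proportion
    rw [all_eq, curves_eq (Q := fun c Δ => Δ ≠ 0 ∧ IsCoprime c Δ ∧
      |(Δ : ℝ)| ≤ ψ (Pool.Agent.H828_SQ.rad Δ) * Pool.Agent.H828_SQ.rad Δ) fun W => by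
      unfold Semistable conductor Pool.Agent.H828_SQ.rad
      tauto]
    exact Pool.Agent.H828_SQ.prop_psi hψ

end Pool.Agent.Results.MP_d8bd92_nt.SemistableByHeight
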