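import Pool.Agent.H775.SZ.SemiMain

/-!
# Szpiro's conjecture for semistable curves with given torsion: many curves with `|Δ| > K N ^ κ`
for every exponent `κ` between the typical one and six
-/

set_option autoImplicit false

namespace Pool.Agent.Results.MP_d8bd92_nt.TorsionLargeDiscriminants

open Finset Polynomial

/-- the product of the primes dividing `Δ(W)` (the conductor if `gcd(c₄, Δ) = 1`) -/
def conductor (W : WeierstrassCurve ℤ) : ℕ := ∏ p ∈ W.Δ.natAbs.primeFactors, p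

/-- the ten groups of order at least five in Mazur's list of the torsion subgroups of the elliptic
curves over `ℚ` -/
inductive Torsion
  | Z5 | Z6 | Z7 | Z8 | Z9 | Z10 | Z12 | Z2Z4 | Z2Z6 | Z2Z8

/-- Kubert's families `y² + a₁(t) x y + a₃(t) y = x³ + a₂(t) x²` (Tate normal forms, with the
denominators cleared) -/
def curve : Torsion → ℚ → WeierstrassCurve ℚ
  | .Z5, t => ⟨1 - t, -t, -t, 0, 0⟩
  | .Z6, t => ⟨1 - t, -(t ^ 2 + t), -(t ^ 2 + t), 0, 0⟩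
  | .Z7, t => ⟨1 + t - t ^ 2, -(t ^ 2 * (t - 1)), -(t ^ 2 * (t - 1)), 0, 0⟩
  | .Z8, t => ⟨t - (2 * t - 1) * (t - 1), -((2 * t - 1) * (t - 1) * t ^ 2),
      -((2 * t - 1) * (t - 1) * t ^ 3), 0, 0⟩
  | .Z9, t => ⟨1 - t ^ 2 * (t - 1), -(t ^ 2 * (t - 1) * (t ^ 2 - t + 1)),
      -(t ^ 2 * (t - 1) * (t ^ 2 - t + 1)), 0, 0⟩
  | .Z10, t => ⟨-t ^ 2 + 3 * t - 1 - t * (2 * t - 1) * (t - 1), -(t ^ 3 * (2 * t - 1) * (t - 1)),
      -(t ^ 3 * (2 * t - 1) * (t - 1) * (-t ^ 2 + 3 * t - 1)), 0, 0⟩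
  | .Z12, t => ⟨(t - 1) ^ 3 + t * (2 * t - 1) * (3 * t ^ 2 - 3 * t + 1),
      -(t * (2 * t - 1) * (3 * t ^ 2 - 3 * t + 1) * (2 * t ^ 2 - 2 * t + 1) * (t - 1) ^ 2),
      -(t * (2 * t - 1) * (3 * t ^ 2 - 3 * t + 1) * (2 * t ^ 2 - 2 * t + 1) * (t - 1) ^ 5), 0, 0⟩
  | .Z2Z4, t => ⟨4, 1 - t ^ 2, 4 * (1 - t ^ 2), 0, 0⟩
  | .Z2Z6, t => ⟨t ^ 2 + 2 * t - 19, 2 * (t - 5) * (t - 1) ^ 2,
      2 * (t - 5) * (t - 1) ^ 2 * (t ^ 2 - 9), 0, 0⟩
  | .Z2Z8, t => ⟨t * (2 * t + 1) * (2 * t ^ 2 - 1) - (t + 1) * (2 * t ^ 2 + 2 * t + 1),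
      -((t + 1) * (2 * t ^ 2 + 2 * t + 1) * (t * (2 * t + 1)) ^ 2),
      -((t + 1) * (2 * t ^ 2 + 2 * t + 1) * (t * (2 * t + 1)) ^ 3 * (2 * t ^ 2 - 1)), 0, 0⟩

/-- `W` is isomorphic over `ℚ` to a member of Kubert's family for `T` -/
def KubertMember (T : Torsion) (W : WeierstrassCurve ℤ) : Prop :=
  ∃ (t : ℚ) (C : WeierstrassCurve.VariableChange ℚ), C • curve T t = W.map (Int.castRingHom ℚ)

/-- the number `k` such that `c₄` and `c₆` of Kubert's family are forms of degrees `4k` and `6k`;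
the modular curve has `2k + 2` cusps -/
def level : Torsion → ℕ
  | .Z5 => 1 | .Z6 => 1 | .Z7 => 2 | .Z8 => 2 | .Z9 => 3 | .Z10 => 3 | .Z12 => 4
  | .Z2Z4 => 1 | .Z2Z6 => 2 | .Z2Z8 => 4

/-- the invariants `(c₄, c₆)` of the integral Weierstrass curves with `Δ ≠ 0` and `gcd(c₄, Δ) = 1`
(the minimal models of the semistable elliptic curves over `ℚ`) in Kubert's family for `T` with
conductor `N ≤ X`, naive height `max (|c₄|³, c₆²) ≤ X ^ κ` and `|Δ| > K * N ^ κ` -/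
def Large (T : Torsion) (κ K X : ℝ) : Set (ℤ × ℤ) :=
  {q | ∃ W : WeierstrassCurve ℤ, W.Δ ≠ 0 ∧ IsCoprime W.c₄ W.Δ ∧ KubertMember T W ∧
    q = (W.c₄, W.c₆) ∧ (conductor W : ℝ) ≤ X ∧
    max (|(W.c₄ : ℝ)| ^ 3) ((W.c₆ : ℝ) ^ 2) ≤ X ^ κ ∧
    K * (conductor W : ℝ) ^ κ < |(W.Δ : ℝ)|}

/-- Let `T` be one of the ten torsion groups of order at least five, `k = level T`,
`6k / (k + 1) < κ < 6` and `K > 0`. There is `c > 0` such that for all large `X` at least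
`c X ^ (1 - κ/6)` semistable elliptic curves over `ℚ` in Kubert's family for `T` have conductor
`N ≤ X`, height `max (|c₄|³, c₆²) ≤ X ^ κ` and `|Δ| > K N ^ κ`. -/
theorem result (T : Torsion) (κ K : ℝ) (h1 : 6 * (level T : ℝ) / (level T + 1) < κ) (h2 : κ < 6)
    (hK : 0 < K) : ∃ c : ℝ, 0 < c ∧ ∃ X₀ : ℝ, ∀ X : ℝ, X₀ ≤ X → (Large T κ K X).Finite ∧
      c * X ^ (1 - κ / 6) ≤ ((Large T κ K X).ncard : ℝ) := by
  have hκ0 : 0 < κ := lt_of_le_of_lt (by positivity) h1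
  have hfin : ∀ X : ℝ, (Large T κ K X).Finite := by
    intro X
    refine ((Finset.finite_toSet (Icc (-⌈max 1 (X ^ κ)⌉) ⌈max 1 (X ^ κ)⌉ ×ˢ
      Icc (-⌈max 1 (X ^ κ)⌉) ⌈max 1 (X ^ κ)⌉))).subset ?_
    rintro _ ⟨W, -, -, -, rfl, -, hle, -⟩
    have g1 : (1 : ℝ) ≤ max 1 (X ^ κ) := le_max_left _ _
    have hX : max (|(W.c₄ : ℝ)| ^ 3) ((W.c₆ : ℝ) ^ 2) ≤ max 1 (X ^ κ) :=
      hle.trans (le_max_right _ _)
    have h4 : |(W.c₄ : ℝ)| ≤ max 1 (X ^ κ) := by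
      rcases le_total |(W.c₄ : ℝ)| 1 with h2 | h2
      · exact h2.trans g1
      · exact (le_self_pow₀ h2 (by norm_num)).trans ((le_max_left _ _).trans hX)
    have h6 : |(W.c₆ : ℝ)| ≤ max 1 (X ^ κ) := by
      rcases le_total |(W.c₆ : ℝ)| 1 with h2 | h2
      · exact h2.trans g1
      · have h3 : |(W.c₆ : ℝ)| ≤ |(W.c₆ : ℝ)| ^ 2 := le_self_pow₀ h2 (by norm_num)
        rw [sq_abs] at h3
        exact h3.trans ((le_max_right _ _).trans hX)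
    have b1 : |(W.c₄ : ℝ)| ≤ (⌈max 1 (X ^ κ)⌉ : ℝ) := h4.trans (Int.le_ceil _)
    have b2 : |(W.c₆ : ℝ)| ≤ (⌈max 1 (X ^ κ)⌉ : ℝ) := h6.trans (Int.le_ceil _)
    rw [Finset.mem_coe, mem_product, mem_Icc, mem_Icc]
    refine ⟨abs_le.mp ?_, abs_le.mp ?_⟩
    · exact_mod_cast b1
    · exact_mod_cast b2
  have main : ∀ (a1 a2 a3 : ℤ[X]), Pool.Agent.H775.SZ.SData a1 a2 a3 (level T) →
      (∀ x : ℚ, ∃ (t : ℚ) (C : WeierstrassCurve.VariableChange ℚ),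
        C • curve T t = Pool.Agent.TH498.KB.crv a1 a2 a3 x) →
      ∃ c : ℝ, 0 < c ∧ ∃ X₀ : ℝ, ∀ X : ℝ, X₀ ≤ X → (Large T κ K X).Finite ∧
        c * X ^ (1 - κ / 6) ≤ ((Large T κ K X).ncard : ℝ) := by
    intro a1 a2 a3 hS hV
    obtain ⟨c, hc, X0, hX0, h⟩ := Pool.Agent.H775.SZ.main_semi a1 a2 a3 (level T) hS κ K h1 h2 hK
    refine ⟨c, hc, X0 ^ (1 / κ), fun X hX => ⟨hfin X, ?_⟩⟩
    have hX00 : 0 < X0 := by linarith
    have hXpos : 0 < X := lt_of_lt_of_le (by positivity) hX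
    have hXκ : X0 ≤ X ^ κ := by
      calc X0 = (X0 ^ (1 / κ)) ^ κ := by
            rw [← Real.rpow_mul hX00.le, one_div_mul_cancel hκ0.ne', Real.rpow_one]
        _ ≤ X ^ κ := Real.rpow_le_rpow (by positivity) hX hκ0.le
    obtain ⟨S, hS, hcard⟩ := h (X ^ κ) hXκ
    have h4 : (S : Set (ℤ × ℤ)) ⊆ Large T κ K X := by
      intro q hq
      obtain ⟨W, g1, g2, ⟨x, D, g3⟩, g4, g5, g6, g7, g8⟩ := hS q hq
      obtain ⟨t, C, hC⟩ := hV x
      refine ⟨W, g1, g2, ⟨t, D * C, ?_⟩, g4, ?_, max_le g5 g6, g8⟩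
      · rw [mul_smul, hC, g3]
      · rw [← Real.rpow_mul hXpos.le, mul_one_div_cancel hκ0.ne', Real.rpow_one] at g7
        exact g7
    have h5 := Set.ncard_le_ncard h4 (hfin X)
    rw [Set.ncard_coe_finset] at h5
    have h6 : (X ^ κ) ^ (1 / κ - 1 / 6) = X ^ (1 - κ / 6) := by
      rw [← Real.rpow_mul hXpos.le]
      congr 1
      field_simp
    rw [h6] at hcard
    exact hcard.trans (by exact_mod_cast h5)
  have triv : ∀ (a1 a2 a3 : ℤ[X]), (∀ t, curve T t = Pool.Agent.TH498.KB.crv a1 a2 a3 t) →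
      ∀ x : ℚ, ∃ (t : ℚ) (C : WeierstrassCurve.VariableChange ℚ),
        C • curve T t = Pool.Agent.TH498.KB.crv a1 a2 a3 x := by
    intro a1 a2 a3 h x
    exact ⟨x, 1, by rw [one_smul, h x]⟩
  cases T
  · exact main _ _ _ Pool.Agent.H775.SZ.sd_z5 (triv _ _ _ (fun t => by
      simp [curve, Pool.Agent.TH498.KB.crv, Pool.Agent.TH498.KB.a1_z5,
        Pool.Agent.TH498.KB.a2_z5, Pool.Agent.TH498.KB.a3_z5]))
  · exact main _ _ _ Pool.Agent.H775.SZ.sd_z6 (triv _ _ _ (fun t => by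
      simp [curve, Pool.Agent.TH498.KB.crv, Pool.Agent.TH498.KB.a1_z6,
        Pool.Agent.TH498.KB.a2_z6, Pool.Agent.TH498.KB.a3_z6]))
  · exact main _ _ _ Pool.Agent.H775.SZ.sd_z7 (triv _ _ _ (fun t => by
      simp [curve, Pool.Agent.TH498.KB.crv, Pool.Agent.TH498.KB.a1_z7,
        Pool.Agent.TH498.KB.a2_z7, Pool.Agent.TH498.KB.a3_z7]))
  · exact main _ _ _ Pool.Agent.H775.SZ.sd_z8 (triv _ _ _ (fun t => by
      simp [curve, Pool.Agent.TH498.KB.crv, Pool.Agent.TH498.KB.a1_z8,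
        Pool.Agent.TH498.KB.a2_z8, Pool.Agent.TH498.KB.a3_z8]))
  · exact main _ _ _ Pool.Agent.H775.SZ.sd_z9 (triv _ _ _ (fun t => by
      simp [curve, Pool.Agent.TH498.KB.crv, Pool.Agent.TH498.KB.a1_z9,
        Pool.Agent.TH498.KB.a2_z9, Pool.Agent.TH498.KB.a3_z9]))
  · exact main _ _ _ Pool.Agent.H775.SZ.sd_z10 (triv _ _ _ (fun t => by
      simp [curve, Pool.Agent.TH498.KB.crv, Pool.Agent.TH498.KB.a1_z10,
        Pool.Agent.TH498.KB.a2_z10, Pool.Agent.TH498.KB.a3_z10]))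
  · exact main _ _ _ Pool.Agent.H775.SZ.sd_z12 (triv _ _ _ (fun t => by
      simp [curve, Pool.Agent.TH498.KB.crv, Pool.Agent.TH498.KB.a1_z12,
        Pool.Agent.TH498.KB.a2_z12, Pool.Agent.TH498.KB.a3_z12]))
  · refine main _ _ _ Pool.Agent.H775.SZ.sd_n24 (fun x => ?_)
    refine ⟨1 + 8 * x, ⟨Units.mk0 4 (by norm_num), 0, 0, 0⟩, ?_⟩
    ext <;> simp [curve, Pool.Agent.TH498.KB.crv, Pool.Agent.H775.SZ.a1_n24,
      Pool.Agent.H775.SZ.a2_n24, Pool.Agent.H775.SZ.a3_n24,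
      WeierstrassCurve.variableChange_a₁, WeierstrassCurve.variableChange_a₂,
      WeierstrassCurve.variableChange_a₃, WeierstrassCurve.variableChange_a₄,
      WeierstrassCurve.variableChange_a₆] <;> ring
  · refine main _ _ _ Pool.Agent.H775.SZ.sd_n26 (fun x => ?_)
    refine ⟨1 + 8 * x, ⟨Units.mk0 16 (by norm_num), 0, 0, 0⟩, ?_⟩
    ext <;> simp [curve, Pool.Agent.TH498.KB.crv, Pool.Agent.H775.SZ.a1_n26,
      Pool.Agent.H775.SZ.a2_n26, Pool.Agent.H775.SZ.a3_n26,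
      WeierstrassCurve.variableChange_a₁, WeierstrassCurve.variableChange_a₂,
      WeierstrassCurve.variableChange_a₃, WeierstrassCurve.variableChange_a₄,
      WeierstrassCurve.variableChange_a₆] <;> ring
  · exact main _ _ _ Pool.Agent.H775.SZ.sd_z2x8 (triv _ _ _ (fun t => by
      simp [curve, Pool.Agent.TH498.KB.crv, Pool.Agent.TH498.KB.a1_z2x8,
        Pool.Agent.TH498.KB.a2_z2x8, Pool.Agent.TH498.KB.a3_z2x8]))

end Pool.Agent.Results.MP_d8bd92_nt.TorsionLargeDiscriminants
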